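import Pool.Agent.Lib_MP_1209e6_dp.Homog
import Pool.Agent.Lib_MP_1209e6_ag.Der

/-! PIECE E5: the double covers of the multitangent lines are a covering family. -/

set_option autoImplicit false

open MvPolynomial Pool.Agent.CampanaFlow

namespace Pool.Agent.CYD

variable {K Ω : Type} [Field K] [Field Ω] [Algebra ℂ K] [Algebra ℂ Ω] [Algebra K Ω]
  [IsScalarTower ℂ K Ω]

/-- an element of `adjoin K S` lies in a subfield which contains `K` and `S` -/
theorem mem_of_adjoin {K Ω : Type} [Field K] [Field Ω] [Algebra K Ω] (S : Set Ω) (E : Subfield Ω)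
    (hK : ∀ a : K, algebraMap K Ω a ∈ E) (hS : S ⊆ E) (z : Ω) (hz : z ∈ IntermediateField.adjoin K S) :
    z ∈ E := by
  let E' : IntermediateField K Ω := { E with algebraMap_mem' := hK, inv_mem' := fun x hx => E.inv_mem hx }
  have h1 : IntermediateField.adjoin K S ≤ E' := IntermediateField.adjoin_le_iff.2 hS
  exact h1 hz

theorem exists_lift_poly {K Ω : Type} [Field K] [Field Ω] [Algebra K Ω] (L : IntermediateField K Ω)
    (Q : Polynomial Ω) (h : ∀ n, Q.coeff n ∈ L) : ∃ q : Polynomial L, q.map (algebraMap L Ω) = Q := by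
  have h1 : Q ∈ Polynomial.lifts (algebraMap L Ω) := by
    rw [Polynomial.lifts_iff_coeff_lifts]
    intro n
    exact ⟨⟨_, h n⟩, rfl⟩
  exact (Polynomial.mem_lifts _).1 h1

/-- **PIECE E5, general exponent.** `w^m = f(x)`, `f(x + (T - x_i) v) = G^m Q`, and a derivation `D` with
`D x = v` (`v_i = 1`) killing `v` and the coefficients of `G` and `Q`: the finite extension `L = K(v, G, Q)` of
`K` is generated by its subfield `k = ℂ(v, x - x_i v, G, Q)`, `t = x_i` and `w' = w / G(t)`, `w'^m = Q(t)`. -/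
theorem exists_pair [Algebra.IsAlgebraic K Ω] {n : ℕ} (x : Fin n → K) (w : K)
    (hgen : IntermediateField.adjoin ℂ (Set.range x ∪ {w}) = ⊤) (f : MvPolynomial (Fin n) ℂ)
    (e : ℕ) (he0 : e ≠ 0)
    (hw : w ^ e = aeval x f) (hw0 : w ≠ 0) (v : Fin n → Ω) (i : Fin n) (hv : v i = 1)
    (G Q : Polynomial Ω)
    (hGQ : aeval (fun j => Polynomial.C (algebraMap K Ω (x j)) +
      (Polynomial.X - Polynomial.C (algebraMap K Ω (x i))) * Polynomial.C (v j)) f = G ^ e * Q)
    (D : Derivation ℂ Ω Ω) (hDx : ∀ j, D (algebraMap K Ω (x j)) = v j) (hDv : ∀ j, D (v j) = 0)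
    (hDG : ∀ m, D (G.coeff m) = 0) (hDQ : ∀ m, D (Q.coeff m) = 0) :
    ∃ (L : IntermediateField K Ω) (_ : FiniteDimensional K L) (k : IntermediateField ℂ L)
      (t w' : L) (q : Polynomial L) (D' : Derivation ℂ L L),
      (∀ m, q.coeff m ∈ k) ∧ q.map (algebraMap L Ω) = Q ∧ (t : Ω) = algebraMap K Ω (x i) ∧
      ¬ IsAlgebraic k t ∧ w' ^ e = q.eval t ∧ w' ≠ 0 ∧
      IntermediateField.adjoin ℂ ((k : Set L) ∪ {t, w'}) = ⊤ ∧
      (∀ z, ((D' z : L) : Ω) = D (z : Ω)) ∧ (∀ a ∈ k, D' a = 0) ∧ D' t = 1 ∧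
      (w' : Ω) = algebraMap K Ω w / G.eval (algebraMap K Ω (x i)) := by
  classical
  -- the point
  set θ : Ω := algebraMap K Ω (x i) with hθ
  set b : Fin n → Ω := fun j => algebraMap K Ω (x j) - θ * v j with hb
  set S : Set Ω := Set.range v ∪ (Set.range G.coeff ∪ Set.range Q.coeff) with hS
  have hSfin : S.Finite := by
    have h1 : ∀ P : Polynomial Ω, (Set.range P.coeff).Finite := by
      intro P
      refine ((P.support.finite_toSet.image P.coeff).union (Set.finite_singleton 0)).subset ?_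
      rintro _ ⟨m, rfl⟩
      by_cases hm : P.coeff m = 0
      · right; exact hm
      · left; exact ⟨m, Polynomial.mem_support_iff.2 hm, rfl⟩
    exact (Set.finite_range v).union ((h1 G).union (h1 Q))
  let L : IntermediateField K Ω := IntermediateField.adjoin K S
  have hfin : FiniteDimensional K L := by
    have : Finite S := hSfin
    exact IntermediateField.finiteDimensional_adjoin fun z _ => Algebra.IsIntegral.isIntegral z
  have hSL : ∀ z ∈ S, z ∈ L := fun z hz => IntermediateField.subset_adjoin K S hz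
  have hxL : ∀ a : K, algebraMap K Ω a ∈ L := fun a => L.algebraMap_mem a
  have hvL : ∀ j, v j ∈ L := fun j => hSL _ (Or.inl ⟨j, rfl⟩)
  have hbL : ∀ j, b j ∈ L := fun j => L.sub_mem (hxL _) (L.mul_mem (hxL _) (hvL j))
  -- the base
  let T : Set L := {a : L | (a : Ω) ∈ S ∪ Set.range b}
  let k : IntermediateField ℂ L := IntermediateField.adjoin ℂ T
  have hDb : ∀ j, D (b j) = 0 := by
    intro j
    rw [hb]
    simp only
    rw [map_sub, D.leibniz, hDx, hDv, hθ, hDx, hv]
    simp
  -- `D` kills `k`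
  have hDk : ∀ a ∈ k, D (a : Ω) = 0 := by
    intro a ha
    refine IntermediateField.adjoin_induction (F := ℂ) (s := T)
      (p := fun a _ => D (a : Ω) = 0) ?_ ?_ ?_ ?_ ?_ ha
    · rintro z (hz | ⟨j, hj⟩)
      · rcases hz with ⟨j, hj⟩ | ⟨m, hm⟩ | ⟨m, hm⟩
        · rw [← hj]; exact hDv j
        · rw [← hm]; exact hDG m
        · rw [← hm]; exact hDQ m
      · rw [← hj]; exact hDb j
    · intro c
      exact D.map_algebraMap c
    · intro z₁ z₂ _ _ h1 h2
      show D ((z₁ : Ω) + z₂) = 0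
      rw [map_add, h1, h2, add_zero]
    · intro z _ h1
      show D ((z : Ω)⁻¹) = 0
      rw [Derivation.leibniz_inv, h1, smul_zero]
    · intro z₁ z₂ _ _ h1 h2
      show D ((z₁ : Ω) * z₂) = 0
      rw [D.leibniz, h1, h2, smul_zero, smul_zero, add_zero]
  -- lifts of the polynomials
  obtain ⟨g, hg⟩ := exists_lift_poly L G fun m => hSL _ (Or.inr (Or.inl ⟨m, rfl⟩))
  obtain ⟨q, hq⟩ := exists_lift_poly L Q fun m => hSL _ (Or.inr (Or.inr ⟨m, rfl⟩))
  have hgk : ∀ m, g.coeff m ∈ k := by
    intro m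
    refine IntermediateField.subset_adjoin ℂ T ?_
    refine Or.inl (Or.inr (Or.inl ⟨m, ?_⟩))
    rw [← hg, Polynomial.coeff_map]; rfl
  have hqk : ∀ m, q.coeff m ∈ k := by
    intro m
    refine IntermediateField.subset_adjoin ℂ T ?_
    refine Or.inl (Or.inr (Or.inr ⟨m, ?_⟩))
    rw [← hq, Polynomial.coeff_map]; rfl
  let t : L := algebraMap K L (x i)
  have hDt : D (t : Ω) = 1 := by
    show D (algebraMap K Ω (x i)) = 1
    rw [hDx, hv]
  -- the value at the point
  have hval : algebraMap K Ω w ^ e = G.eval θ ^ e * Q.eval θ := by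
    rw [← map_pow, hw]
    have h1 := congrArg (Polynomial.aeval θ) hGQ
    rw [map_mul, map_pow, Polynomial.coe_aeval_eq_eval] at h1
    rw [← h1]
    have h2 : algebraMap K Ω (aeval x f) = aeval (fun j => algebraMap K Ω (x j)) f := by
      rw [← IsScalarTower.coe_toAlgHom' ℂ K Ω, ← AlgHom.comp_apply, comp_aeval]
    have h3 : Polynomial.eval θ (aeval (fun j => Polynomial.C (algebraMap K Ω (x j)) +
        (Polynomial.X - Polynomial.C θ) * Polynomial.C (v j)) f) =
        aeval (fun j => algebraMap K Ω (x j)) f := by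
      have h4 : Polynomial.eval θ (aeval (fun j => Polynomial.C (algebraMap K Ω (x j)) +
          (Polynomial.X - Polynomial.C θ) * Polynomial.C (v j)) f) =
          ((Polynomial.aeval θ : Polynomial Ω →ₐ[Ω] Ω).restrictScalars ℂ)
            (aeval (fun j => Polynomial.C (algebraMap K Ω (x j)) +
          (Polynomial.X - Polynomial.C θ) * Polynomial.C (v j)) f) := by
        rw [AlgHom.restrictScalars_apply, Polynomial.coe_aeval_eq_eval]
      rw [h4, ← AlgHom.comp_apply, comp_aeval]
      congr 2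
      ext j
      simp
    rw [h2, h3]
  have hG0 : G.eval θ ≠ 0 := by
    intro h
    rw [h] at hval
    apply hw0
    have h1 : algebraMap K Ω w ^ e = 0 := by rw [hval, zero_pow he0, zero_mul]
    exact (map_eq_zero_iff _ (algebraMap K Ω).injective).1 ((pow_eq_zero_iff he0).1 h1)
  have hgt : ((g.eval t : L) : Ω) = G.eval θ := by
    have h1 := Polynomial.eval_map_algebraMap g (t : Ω)
    rw [hg] at h1
    rw [show θ = (t : Ω) from rfl, h1]
    exact (Polynomial.aeval_algebraMap_apply Ω t g).symm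
  have hqt : ((q.eval t : L) : Ω) = Q.eval θ := by
    have h1 := Polynomial.eval_map_algebraMap q (t : Ω)
    rw [hq] at h1
    rw [show θ = (t : Ω) from rfl, h1]
    exact (Polynomial.aeval_algebraMap_apply Ω t q).symm
  let w' : L := algebraMap K L w / g.eval t
  have hgt0 : g.eval t ≠ 0 := by
    intro h
    apply hG0
    rw [← hgt, h]; rfl
  have hw' : w' ^ e = q.eval t := by
    apply Subtype.ext
    have h1 : ((w' : L) : Ω) = algebraMap K Ω w / G.eval θ := by
      rw [← hgt]; rfl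
    rw [IntermediateField.coe_pow, h1, hqt, div_pow, hval, mul_comm, mul_div_assoc,
      div_self (pow_ne_zero e hG0), mul_one]
  have hw'0 : w' ≠ 0 := by
    apply div_ne_zero _ hgt0
    exact (map_ne_zero_iff _ (algebraMap K L).injective).2 hw0
  -- generation
  have hgenL : IntermediateField.adjoin ℂ ((k : Set L) ∪ {t, w'}) = ⊤ := by
    rw [eq_top_iff]
    rintro z -
    set E := IntermediateField.adjoin ℂ ((k : Set L) ∪ {t, w'}) with hE
    have hkE : ∀ a ∈ k, a ∈ E := fun a ha => IntermediateField.subset_adjoin ℂ _ (Or.inl ha)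
    have htE : t ∈ E := IntermediateField.subset_adjoin ℂ _ (Or.inr (Or.inl rfl))
    have hwE : w' ∈ E := IntermediateField.subset_adjoin ℂ _ (Or.inr (Or.inr rfl))
    have hTE : ∀ a ∈ T, a ∈ E := fun a ha => hkE a (IntermediateField.subset_adjoin ℂ T ha)
    have hxE : ∀ j, algebraMap K L (x j) ∈ E := by
      intro j
      have h1 : algebraMap K L (x j) = (⟨b j, hbL j⟩ : L) + t * ⟨v j, hvL j⟩ := by
        apply Subtype.ext
        show algebraMap K Ω (x j) = b j + θ * v j
        rw [hb]; simp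
      rw [h1]
      exact E.add_mem (hTE _ (Or.inr ⟨j, rfl⟩)) (E.mul_mem htE (hTE _ (Or.inl (Or.inl ⟨j, rfl⟩))))
    have hgE : g.eval t ∈ E := by
      rw [Polynomial.eval_eq_sum_range]
      exact sum_mem fun m _ => mul_mem (hkE _ (hgk m)) (pow_mem htE m)
    have hwE' : algebraMap K L w ∈ E := by
      have h1 : algebraMap K L w = w' * g.eval t := by
        show _ = algebraMap K L w / g.eval t * g.eval t
        rw [div_mul_cancel₀ _ hgt0]
      rw [h1]
      exact E.mul_mem hwE hgE
    have hKE : ∀ a : K, algebraMap K L a ∈ E := by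
      intro a
      have h1 : IntermediateField.adjoin ℂ (Set.range x ∪ {w}) ≤
          E.comap (IsScalarTower.toAlgHom ℂ K L) := by
        rw [IntermediateField.adjoin_le_iff]
        rintro a (⟨j, rfl⟩ | ha)
        · exact hxE j
        · rw [Set.mem_singleton_iff.1 ha]; exact hwE'
      rw [hgen] at h1
      exact h1 (IntermediateField.mem_top (x := a))
    have hz := mem_of_adjoin (K := K) S (E.toSubfield.map (algebraMap L Ω))
      (fun a => ⟨algebraMap K L a, hKE a, rfl⟩)
      (fun s hs => ⟨⟨s, hSL s hs⟩, hTE _ (Or.inl hs), rfl⟩) z.1 z.2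
    obtain ⟨e, he, hez⟩ := hz
    have : e = z := Subtype.ext hez
    exact this ▸ he
  -- the derivation
  have hDL : ∀ z : L, D (z : Ω) ∈ L := by
    have hF : ∀ z ∈ IntermediateField.adjoin ℂ ((k : Set L) ∪ {t}), D (z : Ω) ∈ L := by
      intro z hz
      refine IntermediateField.adjoin_induction (F := ℂ) (s := (k : Set L) ∪ {t})
        (p := fun a _ => D (a : Ω) ∈ L) ?_ ?_ ?_ ?_ ?_ hz
      · rintro a (ha | ha)
        · rw [hDk a ha]; exact L.zero_mem
        · rw [Set.mem_singleton_iff.1 ha, hDt]; exact L.one_mem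
      · intro c
        show D (algebraMap ℂ Ω c) ∈ L
        rw [D.map_algebraMap]; exact L.zero_mem
      · intro z₁ z₂ _ _ h1 h2
        show D ((z₁ : Ω) + z₂) ∈ L
        rw [map_add]; exact L.add_mem h1 h2
      · intro z _ h1
        show D ((z : Ω)⁻¹) ∈ L
        rw [Derivation.leibniz_inv]
        exact L.mul_mem (L.neg_mem (pow_mem (L.inv_mem z.2) 2)) h1
      · intro z₁ z₂ _ _ h1 h2
        show D ((z₁ : Ω) * z₂) ∈ L
        rw [D.leibniz]
        exact L.add_mem (L.mul_mem z₁.2 h2) (L.mul_mem z₂.2 h1)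
    have hDw : D (w' : Ω) ∈ L := by
      have h1 : D ((q.eval t : L) : Ω) ∈ L := by
        apply hF
        rw [Polynomial.eval_eq_sum_range]
        exact sum_mem fun m _ => mul_mem
          (IntermediateField.subset_adjoin ℂ ((k : Set L) ∪ {t}) (Or.inl (hqk m)))
          (pow_mem (IntermediateField.subset_adjoin ℂ ((k : Set L) ∪ {t}) (Or.inr rfl)) m)
      rw [← hw', IntermediateField.coe_pow, D.leibniz_pow] at h1
      have h2 : D (w' : Ω) = ((e : Ω)⁻¹ * ((w' : Ω) ^ (e - 1))⁻¹) * (e • (w' : Ω) ^ (e - 1) • D (w' : Ω)) := by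
        have h3 : (w' : Ω) ≠ 0 := fun h => hw'0 (Subtype.ext h)
        have h4 : CharZero Ω := charZero_of_injective_algebraMap (FaithfulSMul.algebraMap_injective ℂ Ω)
        have h5 : (e : Ω) ≠ 0 := Nat.cast_ne_zero.2 he0
        simp only [nsmul_eq_mul, smul_eq_mul]
        field_simp
      rw [h2]
      refine L.mul_mem (L.mul_mem (L.inv_mem ?_) (L.inv_mem (pow_mem w'.2 _))) h1
      exact natCast_mem L e
    intro z
    have hz : z ∈ IntermediateField.adjoin ℂ ((k : Set L) ∪ {t, w'}) := by rw [hgenL]; trivial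
    refine IntermediateField.adjoin_induction (F := ℂ) (s := (k : Set L) ∪ {t, w'})
      (p := fun a _ => D (a : Ω) ∈ L) ?_ ?_ ?_ ?_ ?_ hz
    · rintro a (ha | ha | ha)
      · rw [hDk a ha]; exact L.zero_mem
      · rw [ha, hDt]; exact L.one_mem
      · rw [Set.mem_singleton_iff.1 ha]; exact hDw
    · intro c
      show D (algebraMap ℂ Ω c) ∈ L
      rw [D.map_algebraMap]; exact L.zero_mem
    · intro z₁ z₂ _ _ h1 h2
      show D ((z₁ : Ω) + z₂) ∈ L
      rw [map_add]; exact L.add_mem h1 h2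
    · intro z _ h1
      show D ((z : Ω)⁻¹) ∈ L
      rw [Derivation.leibniz_inv]
      exact L.mul_mem (L.neg_mem (pow_mem (L.inv_mem z.2) 2)) h1
    · intro z₁ z₂ _ _ h1 h2
      show D ((z₁ : Ω) * z₂) ∈ L
      rw [D.leibniz]
      exact L.add_mem (L.mul_mem z₁.2 h2) (L.mul_mem z₂.2 h1)
  let D' : Derivation ℂ L L := Derivation.mk'
    { toFun := fun z => ⟨D (z : Ω), hDL z⟩
      map_add' := fun z₁ z₂ => by
        apply Subtype.ext
        show D ((z₁ : Ω) + z₂) = D z₁ + D z₂
        rw [map_add]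
      map_smul' := fun c z => by
        apply Subtype.ext
        show D ((c • z : L) : Ω) = c • (D z)
        have h1 : ((c • z : L) : Ω) = c • (z : Ω) := rfl
        rw [h1, D.map_smul] }
    (fun z₁ z₂ => by
      apply Subtype.ext
      show D ((z₁ : Ω) * z₂) = z₁ * (D z₂) + z₂ * (D z₁)
      rw [D.leibniz, smul_eq_mul, smul_eq_mul])
  have hD'k : ∀ a ∈ k, D' a = 0 := fun a ha => Subtype.ext (hDk a ha)
  have hD't : D' t = 1 := Subtype.ext hDt
  -- `t` is transcendental
  have ht : ¬ IsAlgebraic k t := by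
    intro h
    have h1 := Pool.Agent.Campana.derivation_eq_zero D' k hD'k t h
    exact one_ne_zero (hD't.symm.trans h1)
  exact ⟨L, hfin, k, t, w', q, D', hqk, hq, rfl, ht, hw', hw'0, hgenL, fun _ => rfl, hD'k, hD't, by
    rw [← hgt]; rfl⟩

/-- **PIECE E5.** The double covers of the multitangent lines are a covering family. -/
theorem exists_family [Algebra.IsAlgebraic K Ω] {n : ℕ} (x : Fin n → K) (w : K)
    (hgen : IntermediateField.adjoin ℂ (Set.range x ∪ {w}) = ⊤) (f : MvPolynomial (Fin n) ℂ)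
    (hw : w ^ 2 = aeval x f) (hw0 : w ≠ 0) (v : Fin n → Ω) (i : Fin n) (hv : v i = 1)
    (G Q : Polynomial Ω) (hQ : Q.natDegree ≤ 4)
    (hGQ : aeval (fun j => Polynomial.C (algebraMap K Ω (x j)) +
      (Polynomial.X - Polynomial.C (algebraMap K Ω (x i))) * Polynomial.C (v j)) f = G ^ 2 * Q)
    (D : Derivation ℂ Ω Ω) (hDx : ∀ j, D (algebraMap K Ω (x j)) = v j) (hDv : ∀ j, D (v j) = 0)
    (hDG : ∀ m, D (G.coeff m) = 0) (hDQ : ∀ m, D (Q.coeff m) = 0) :
    ∃ (L : IntermediateField K Ω) (_ : FiniteDimensional K L) (k : IntermediateField ℂ L)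
      (y : Fin (3 + 1) → L), AlmostHomogeneous k y ∧ ∀ a ∈ k, D (a : Ω) = 0 := by
  obtain ⟨L, hfin, k, t, w', q, D', hqk, hq, -, ht, hw', hw'0, hgenL, hD', hD'k, hD't, -⟩ :=
    exists_pair x w hgen f 2 two_ne_zero hw hw0 v i hv G Q hGQ D hDx hDv hDG hDQ
  have hq4 : q.natDegree ≤ 4 := by
    rw [← Polynomial.natDegree_map_eq_of_injective (algebraMap L Ω).injective q, hq]
    exact hQ
  have h1 : ∀ a, (w' • D') a = w' * D' a := fun a => rfl
  exact ⟨L, hfin, k, _, (Pool.Agent.DP.homogeneous k t w' q hqk hq4 ht hw' hw'0 hgenL (w' • D')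
    (fun a ha => by rw [h1, hD'k a ha, mul_zero]) (by rw [h1, hD't, mul_one])).1,
    fun a ha => by rw [← hD', hD'k a ha]; rfl⟩

end Pool.Agent.CYD
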